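import Pool.Agent.H29.Funtf

namespace Pool.Agent.Results.MP_8b1f5a_an.All

theorem result (𝕜 : Type) [RCLike 𝕜] (X : Type) [NormedAddCommGroup X] [NormedSpace 𝕜 X]
    [FiniteDimensional 𝕜 X] (h1 : 1 ≤ Module.finrank 𝕜 X) (N : ℕ) (hN : Module.finrank 𝕜 X ≤ N) :
    ∃ (x : Fin N → X) (f : Fin N → (X →L[𝕜] 𝕜)),
      (∀ i, ‖x i‖ = 1 ∧ ‖f i‖ = 1 ∧ f i (x i) = 1) ∧
      ∃ c : 𝕜, ∀ y : X, ∑ i, f i y • x i = c • y := by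
  obtain ⟨x, f, h, h'⟩ := Pool.Agent.H29.Funtf.exists_funtf (𝕜 := 𝕜) (X := X) rfl h1 hN
  exact ⟨x, f, h, _, h'⟩

end Pool.Agent.Results.MP_8b1f5a_an.All
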